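import Pool.Agent.N139.MS.Stm
import Pool.Agent.W683.RC.Bas

/-!
# Project MS: null sequences for the operator norm and for the Hilbert-Schmidt norm (helper195)
-/

set_option autoImplicit false

namespace Pool.Agent.N195.MS

open Filter Topology Matrix
open Pool.Agent.W661.RC (Mt hs IsPr)
open Pool.Agent.N139.MS
open Pool.Agent.W683.RC

noncomputable section

/-! ### The operator norm -/

theorem on_nonneg {d : ℕ} (M : Mt d) : 0 ≤ on M := norm_nonneg _

theorem on_zero {d : ℕ} : on (0 : Mt d) = 0 := by simp [on]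

theorem on_add_le {d : ℕ} (M N : Mt d) : on (M + N) ≤ on M + on N := by
  unfold on
  rw [map_add]
  exact norm_add_le _ _

theorem on_neg {d : ℕ} (M : Mt d) : on (-M) = on M := by
  unfold on
  rw [map_neg, norm_neg]

theorem on_mul_le {d : ℕ} (M N : Mt d) : on (M * N) ≤ on M * on N := by
  unfold on
  rw [map_mul]
  exact norm_mul_le _ _

theorem on_star {d : ℕ} (M : Mt d) : on Mᴴ = on M := by
  unfold on
  rw [← Matrix.star_eq_conjTranspose, map_star, ContinuousLinearMap.star_eq_adjoint]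
  exact LinearIsometryEquiv.norm_map _ _

theorem on_unitary {d : ℕ} (u : Matrix.unitaryGroup (Fin d) ℂ) : on u.val ≤ 1 := by
  unfold on
  have h : Matrix.toEuclideanCLM (n := Fin d) (𝕜 := ℂ) u.val ∈
      unitary (EuclideanSpace ℂ (Fin d) →L[ℂ] EuclideanSpace ℂ (Fin d)) := by
    have h1 := u.2
    rw [Matrix.mem_unitaryGroup_iff'] at h1
    have h2 := Matrix.mem_unitaryGroup_iff.1 u.2
    rw [Unitary.mem_iff]
    constructor
    · rw [← map_star, ← map_mul, h1, map_one]
    · rw [← map_star, ← map_mul, h2, map_one]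
  refine ContinuousLinearMap.opNorm_le_bound _ zero_le_one fun v => ?_
  rw [one_mul]
  exact (ContinuousLinearMap.norm_map_of_mem_unitary h v).le

/-! ### The Hilbert-Schmidt norm and the operator norm -/

theorem hs_col {d : ℕ} (x : Mt d) :
    hs x = ∑ j, ‖(WithLp.toLp 2 (fun i => x i j) : EuclideanSpace ℂ (Fin d))‖ ^ 2 := by
  simp only [EuclideanSpace.norm_sq_eq]
  rw [Finset.sum_comm]
  rfl

theorem hs_mul_left {d : ℕ} (M x : Mt d) : hs (M * x) ≤ on M ^ 2 * hs x := by
  rw [hs_col, hs_col, Finset.mul_sum]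
  apply Finset.sum_le_sum
  intro j _
  rw [← mul_pow]
  apply pow_le_pow_left₀ (norm_nonneg _)
  have h1 : (WithLp.toLp 2 (fun i => (M * x) i j) : EuclideanSpace ℂ (Fin d)) =
      Matrix.toEuclideanCLM (n := Fin d) (𝕜 := ℂ) M
        (WithLp.toLp 2 (fun i => x i j) : EuclideanSpace ℂ (Fin d)) := by
    rw [Matrix.toEuclideanCLM_toLp]
    rfl
  rw [h1]
  exact ContinuousLinearMap.le_opNorm _ _

theorem hs_mul_right {d : ℕ} (x M : Mt d) : hs (x * M) ≤ on M ^ 2 * hs x := by
  rw [← hs_conjTranspose, Matrix.conjTranspose_mul, ← hs_conjTranspose x, ← on_star]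
  exact hs_mul_left _ _

/-! ### Null sequences -/

variable {l : Filter ℕ} {d : ℕ → ℕ}

/-- null sequences for the operator norm -/
def ON (l : Filter ℕ) {d : ℕ → ℕ} (a : ∀ n, Mt (d n)) : Prop :=
  Tendsto (fun n => on (a n)) l (𝓝 0)

/-- null sequences for the Hilbert-Schmidt norm -/
def HN (l : Filter ℕ) {d : ℕ → ℕ} (a : ∀ n, Mt (d n)) : Prop :=
  Tendsto (fun n => hs (a n)) l (𝓝 0)

/-- bounded sequences -/
def Bd {d : ℕ → ℕ} (a : ∀ n, Mt (d n)) : Prop := ∃ C : ℝ, ∀ n, on (a n) ≤ C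

/-- bounded sequences for the Hilbert-Schmidt norm -/
def HB {d : ℕ → ℕ} (a : ∀ n, Mt (d n)) : Prop := ∃ C : ℝ, ∀ n, hs (a n) ≤ C

theorem sq_null {f g : ℕ → ℝ} (hf : ∀ n, 0 ≤ f n) (hfg : ∀ n, f n ≤ g n)
    (hg : Tendsto g l (𝓝 0)) : Tendsto f l (𝓝 0) :=
  squeeze_zero hf hfg hg

theorem ON.add {a b : ∀ n, Mt (d n)} (ha : ON l a) (hb : ON l b) : ON l (a + b) := by
  have h : Tendsto (fun n => on (a n) + on (b n)) l (𝓝 0) := by simpa using Tendsto.add ha hb
  exact sq_null (fun n => on_nonneg _) (fun n => on_add_le (a n) (b n)) h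

theorem ON.neg {a : ∀ n, Mt (d n)} (ha : ON l a) : ON l (-a) := by
  unfold ON at *
  have h : (fun n => on ((-a) n)) = fun n => on (a n) := by
    funext n
    exact on_neg (a n)
  rw [h]
  exact ha

theorem ON.sub {a b : ∀ n, Mt (d n)} (ha : ON l a) (hb : ON l b) : ON l (a - b) := by
  rw [sub_eq_add_neg]
  exact ha.add hb.neg

theorem ON.mulL {a b : ∀ n, Mt (d n)} (hb : Bd b) (ha : ON l a) : ON l (b * a) := by
  obtain ⟨C, hC⟩ := hb
  have h : Tendsto (fun n => C * on (a n)) l (𝓝 0) := by simpa using Tendsto.const_mul C ha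
  exact sq_null (fun n => on_nonneg _) (fun n => (on_mul_le (b n) (a n)).trans
    (mul_le_mul_of_nonneg_right (hC n) (on_nonneg _))) h

theorem ON.mulR {a b : ∀ n, Mt (d n)} (ha : ON l a) (hb : Bd b) : ON l (a * b) := by
  obtain ⟨C, hC⟩ := hb
  have h : Tendsto (fun n => on (a n) * C) l (𝓝 0) := by simpa using Tendsto.mul_const C ha
  exact sq_null (fun n => on_nonneg _) (fun n => (on_mul_le (a n) (b n)).trans
    (mul_le_mul_of_nonneg_left (hC n) (on_nonneg _))) h

theorem ON.mono {l' : Filter ℕ} {a : ∀ n, Mt (d n)} (ha : ON l a) (h : l' ≤ l) : ON l' a :=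
  Tendsto.mono_left ha h

theorem HN.add {a b : ∀ n, Mt (d n)} (ha : HN l a) (hb : HN l b) : HN l (a + b) := by
  have h : Tendsto (fun n => 2 * hs (a n) + 2 * hs (b n)) l (𝓝 0) := by
    simpa using Tendsto.add (Tendsto.const_mul 2 ha) (Tendsto.const_mul 2 hb)
  exact sq_null (fun n => hs_nonneg _) (fun n => hs_add_le (a n) (b n)) h

theorem HN.neg {a : ∀ n, Mt (d n)} (ha : HN l a) : HN l (-a) := by
  unfold HN at *
  have h : (fun n => hs ((-a) n)) = fun n => hs (a n) := by
    funext n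
    exact hs_neg (a n)
  rw [h]
  exact ha

theorem HN.sub {a b : ∀ n, Mt (d n)} (ha : HN l a) (hb : HN l b) : HN l (a - b) := by
  rw [sub_eq_add_neg]
  exact ha.add hb.neg

theorem HN.mulL {a b : ∀ n, Mt (d n)} (hb : Bd b) (ha : HN l a) : HN l (b * a) := by
  obtain ⟨C, hC⟩ := hb
  have h : Tendsto (fun n => C ^ 2 * hs (a n)) l (𝓝 0) := by
    simpa using Tendsto.const_mul (C ^ 2) ha
  exact sq_null (fun n => hs_nonneg _) (fun n => (hs_mul_left (b n) (a n)).trans
    (mul_le_mul_of_nonneg_right (pow_le_pow_left₀ (on_nonneg _) (hC n) 2) (hs_nonneg _))) h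

theorem HN.mulR {a b : ∀ n, Mt (d n)} (ha : HN l a) (hb : Bd b) : HN l (a * b) := by
  obtain ⟨C, hC⟩ := hb
  have h : Tendsto (fun n => C ^ 2 * hs (a n)) l (𝓝 0) := by
    simpa using Tendsto.const_mul (C ^ 2) ha
  exact sq_null (fun n => hs_nonneg _) (fun n => (hs_mul_right (a n) (b n)).trans
    (mul_le_mul_of_nonneg_right (pow_le_pow_left₀ (on_nonneg _) (hC n) 2) (hs_nonneg _))) h

theorem ON.hL {a x : ∀ n, Mt (d n)} (ha : ON l a) (hx : HB x) : HN l (a * x) := by
  obtain ⟨C, hC⟩ := hx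
  have h : Tendsto (fun n => on (a n) ^ 2 * C) l (𝓝 0) := by
    simpa using Tendsto.mul_const C (Tendsto.pow ha 2)
  exact sq_null (fun n => hs_nonneg _) (fun n => (hs_mul_left (a n) (x n)).trans
    (mul_le_mul_of_nonneg_left (hC n) (sq_nonneg _))) h

theorem ON.hR {a x : ∀ n, Mt (d n)} (ha : ON l a) (hx : HB x) : HN l (x * a) := by
  obtain ⟨C, hC⟩ := hx
  have h : Tendsto (fun n => on (a n) ^ 2 * C) l (𝓝 0) := by
    simpa using Tendsto.mul_const C (Tendsto.pow ha 2)
  exact sq_null (fun n => hs_nonneg _) (fun n => (hs_mul_right (x n) (a n)).trans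
    (mul_le_mul_of_nonneg_left (hC n) (sq_nonneg _))) h

/-! ### Unitary sequences -/

/-- the sequence of a word -/
def rr {k : ℕ} (U : ∀ n, Fin k → Matrix.unitaryGroup (Fin (d n)) ℂ) (w : FreeGroup (Fin k)) :
    ∀ n, Mt (d n) := fun n => (FreeGroup.lift (U n) w).val

variable {k : ℕ} {U : ∀ n, Fin k → Matrix.unitaryGroup (Fin (d n)) ℂ}

theorem rr_mul (w w' : FreeGroup (Fin k)) : rr U (w * w') = rr U w * rr U w' := by
  funext n
  simp only [rr, map_mul, Pi.mul_apply]
  rfl

theorem rr_one : rr U 1 = 1 := by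
  funext n
  simp only [rr, map_one, Pi.one_apply]
  rfl

theorem rr_inv_mul (w : FreeGroup (Fin k)) : rr U w⁻¹ * rr U w = 1 := by
  rw [← rr_mul, inv_mul_cancel, rr_one]

theorem rr_mul_inv (w : FreeGroup (Fin k)) : rr U w * rr U w⁻¹ = 1 := by
  rw [← rr_mul, mul_inv_cancel, rr_one]

theorem rr_of (s : Fin k) : rr U (FreeGroup.of s) = fun n => (U n s).val := by
  funext n
  simp [rr]

theorem rr_bd (w : FreeGroup (Fin k)) : Bd (rr U w) := ⟨1, fun _ => on_unitary _⟩

/-- the words with an asymptotic property form a subgroup -/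
theorem word_induction {p : FreeGroup (Fin k) → Prop} (h1 : p 1) (hof : ∀ s, p (FreeGroup.of s))
    (hinv : ∀ w, p w → p w⁻¹) (hmul : ∀ w w', p w → p w' → p (w * w')) (w : FreeGroup (Fin k)) :
    p w := by
  induction w using FreeGroup.induction_on with
  | C1 => exact h1
  | of s => exact hof s
  | inv_of s h => exact hinv _ h
  | mul x y hx hy => exact hmul _ _ hx hy

end

end Pool.Agent.N195.MS
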