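import Pool.Agent.N195.MS.NSeq

/-!
# Project MS, piece RIG: the rigidity theorem (helper195)
-/

set_option autoImplicit false

namespace Pool.Agent.N195.MS

open Filter Topology Matrix
open Pool.Agent.W661.RC (Mt hs IsPr)
open Pool.Agent.N139.MS
open Pool.Agent.W683.RC

noncomputable section

variable {l : Filter ℕ} {d : ℕ → ℕ}
variable {k : ℕ} {U : ∀ n, Fin k → Matrix.unitaryGroup (Fin (d n)) ℂ}

/-- commutators with all words -/
theorem comm_words (y : ∀ n, Mt (d n))
    (h : ∀ s, HN l (rr U (FreeGroup.of s) * y - y * rr U (FreeGroup.of s))) (w : FreeGroup (Fin k)) :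
    HN l (rr U w * y - y * rr U w) := by
  apply word_induction (p := fun w => HN l (rr U w * y - y * rr U w)) _ h _ _ w
  · rw [rr_one, one_mul, mul_one, sub_self]
    unfold HN
    simp only [Pi.zero_apply, hs_zero]
    exact tendsto_const_nhds
  · intro w hw
    have h1 : rr U w⁻¹ * y - y * rr U w⁻¹ = -(rr U w⁻¹ * ((rr U w * y - y * rr U w) * rr U w⁻¹)) := by
      have h2 : rr U w⁻¹ * ((rr U w * y - y * rr U w) * rr U w⁻¹) =
          (rr U w⁻¹ * rr U w) * y * rr U w⁻¹ - rr U w⁻¹ * y * (rr U w * rr U w⁻¹) := by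
        noncomm_ring
      rw [h2, rr_inv_mul, rr_mul_inv]
      noncomm_ring
    rw [h1]
    exact (HN.mulL (rr_bd _) (HN.mulR hw (rr_bd _))).neg
  · intro w w' hw hw'
    have h1 : rr U (w * w') * y - y * rr U (w * w') =
        rr U w * (rr U w' * y - y * rr U w') + (rr U w * y - y * rr U w) * rr U w' := by
      rw [rr_mul]
      noncomm_ring
    rw [h1]
    exact (HN.mulL (rr_bd _) hw').add (HN.mulR hw (rr_bd _))

theorem HN_zero : HN l (0 : ∀ n, Mt (d n)) := by
  unfold HN
  simp only [Pi.zero_apply, hs_zero]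
  exact tendsto_const_nhds

theorem ON_zero : ON l (0 : ∀ n, Mt (d n)) := by
  unfold ON
  simp only [Pi.zero_apply, on_zero]
  exact tendsto_const_nhds

/-- two words with the same image are asymptotically equal -/
theorem AH_eq {K : Type} [Group K] {γ : FreeGroup (Fin k) →* K} (hA : AH γ l d U)
    {w w' : FreeGroup (Fin k)} (h : γ w = γ w') : ON l (rr U w - rr U w') := by
  have h1 : γ (w * w'⁻¹) = 1 := by rw [map_mul, map_inv, h, mul_inv_cancel]
  have h2 : ON l (rr U (w * w'⁻¹) - 1) := hA _ h1
  have h3 : rr U w - rr U w' = (rr U (w * w'⁻¹) - 1) * rr U w' := by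
    rw [rr_mul]
    have h4 : (rr U w * rr U w'⁻¹ - 1) * rr U w' = rr U w * (rr U w'⁻¹ * rr U w') - rr U w' := by
      noncomm_ring
    rw [h4, rr_inv_mul, mul_one]
  rw [h3]
  exact h2.mulR (rr_bd _)

/-- the core: the words which act trivially on `x` -/
def MM (l : Filter ℕ) (U : ∀ n, Fin k → Matrix.unitaryGroup (Fin (d n)) ℂ) (x : ∀ n, Mt (d n)) :
    Subgroup (FreeGroup (Fin k)) where
  carrier := {w | HN l ((rr U w - 1) * x)}
  mul_mem' := by
    intro w w' hw hw'
    have h1 : (rr U (w * w') - 1) * x = rr U w * ((rr U w' - 1) * x) + (rr U w - 1) * x := by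
      rw [rr_mul]
      noncomm_ring
    change HN l ((rr U (w * w') - 1) * x)
    rw [h1]
    exact (HN.mulL (rr_bd _) hw').add hw
  one_mem' := by
    change HN l ((rr U 1 - 1) * x)
    rw [rr_one, sub_self, zero_mul]
    exact HN_zero
  inv_mem' := by
    intro w hw
    change HN l ((rr U w⁻¹ - 1) * x)
    have h1 : (rr U w⁻¹ - 1) * x = -(rr U w⁻¹ * ((rr U w - 1) * x)) := by
      have h2 : rr U w⁻¹ * ((rr U w - 1) * x) = (rr U w⁻¹ * rr U w) * x - rr U w⁻¹ * x := by
        noncomm_ring
      rw [h2, rr_inv_mul]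
      noncomm_ring
    rw [h1]
    exact (HN.mulL (rr_bd _) hw).neg

theorem mem_MM {x : ∀ n, Mt (d n)} {w : FreeGroup (Fin k)} :
    w ∈ MM l U x ↔ HN l ((rr U w - 1) * x) := Iff.rfl

theorem MM_normal (x : ∀ n, Mt (d n))
    (h : ∀ w, HN l (rr U w * x - x * rr U w)) : (MM l U x).Normal := by
  constructor
  intro w hw g
  rw [mem_MM] at hw ⊢
  have h1 : (rr U (g * w * g⁻¹) - 1) * x =
      rr U g * (rr U w - 1) * (rr U g⁻¹ * x - x * rr U g⁻¹) +
        rr U g * (((rr U w - 1) * x) * rr U g⁻¹) := by
    rw [rr_mul, rr_mul]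
    have h2 : rr U g * (rr U w - 1) * (rr U g⁻¹ * x - x * rr U g⁻¹) +
        rr U g * (((rr U w - 1) * x) * rr U g⁻¹) =
        rr U g * rr U w * rr U g⁻¹ * x - (rr U g * rr U g⁻¹) * x := by
      noncomm_ring
    rw [h2, rr_mul_inv]
    noncomm_ring
  rw [h1]
  refine HN.add ?_ (HN.mulL (rr_bd _) (HN.mulR hw (rr_bd _)))
  have h2 : rr U g * (rr U w - 1) = rr U (g * w) - rr U g := by
    rw [rr_mul]; noncomm_ring
  rw [h2]
  have h3 : (rr U (g * w) - rr U g) * (rr U g⁻¹ * x - x * rr U g⁻¹) =
      rr U (g * w) * (rr U g⁻¹ * x - x * rr U g⁻¹) - rr U g * (rr U g⁻¹ * x - x * rr U g⁻¹) := by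
    noncomm_ring
  rw [h3]
  exact (HN.mulL (rr_bd _) (h _)).sub (HN.mulL (rr_bd _) (h _))

/-! ### Bounded sequences -/

theorem Bd.sub {a b : ∀ n, Mt (d n)} (ha : Bd a) (hb : Bd b) : Bd (a - b) := by
  obtain ⟨C, hC⟩ := ha
  obtain ⟨C', hC'⟩ := hb
  refine ⟨C + C', fun n => ?_⟩
  have h1 : (a - b) n = a n + (- b n) := sub_eq_add_neg _ _
  rw [h1]
  refine (on_add_le _ _).trans ?_
  rw [on_neg]
  exact add_le_add (hC n) (hC' n)

theorem Bd.mul {a b : ∀ n, Mt (d n)} (ha : Bd a) (hb : Bd b) : Bd (a * b) := by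
  obtain ⟨C, hC⟩ := ha
  obtain ⟨C', hC'⟩ := hb
  refine ⟨C * C', fun n => ?_⟩
  refine (on_mul_le _ _).trans ?_
  exact mul_le_mul (hC n) (hC' n) (on_nonneg _) ((on_nonneg _).trans (hC n))

/-- two asymptotically equal representations -/
theorem rep_eq (F G : FreeGroup (Fin k) → ∀ n, Mt (d n)) (hF1 : F 1 = 1) (hG1 : G 1 = 1)
    (hFm : ∀ w w', F (w * w') = F w * F w') (hGm : ∀ w w', G (w * w') = G w * G w')
    (hFb : ∀ w, Bd (F w)) (hGb : ∀ w, Bd (G w))
    (h : ∀ s, ON l (F (FreeGroup.of s) - G (FreeGroup.of s))) (w : FreeGroup (Fin k)) :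
    ON l (F w - G w) := by
  apply word_induction (p := fun w => ON l (F w - G w)) _ h _ _ w
  · rw [hF1, hG1, sub_self]
    exact ON_zero
  · intro w hw
    have h1 : F w⁻¹ - G w⁻¹ = -(F w⁻¹ * ((F w - G w) * G w⁻¹)) := by
      have h2 : F w⁻¹ * ((F w - G w) * G w⁻¹) =
          (F w⁻¹ * F w) * G w⁻¹ - F w⁻¹ * (G w * G w⁻¹) := by
        noncomm_ring
      rw [h2, ← hFm, ← hGm, inv_mul_cancel, mul_inv_cancel, hF1, hG1]
      noncomm_ring
    rw [h1]
    exact (ON.mulL (hFb _) (ON.mulR hw (hGb _))).neg
  · intro w w' hw hw'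
    have h1 : F (w * w') - G (w * w') = F w * (F w' - G w') + (F w - G w) * G w' := by
      rw [hFm, hGm]
      noncomm_ring
    rw [h1]
    exact (ON.mulL (hFb _) hw').add (ON.mulR hw (hGb _))

/-- the core of the argument -/
theorem core (hH : S_HSV) {K : Type} [Group K] {γ : FreeGroup (Fin k) →* K} {φ : K →* K}
    (hK : Pool.Agent.W661.RC.HasT K) (hγ : Function.Surjective γ) (hC : Cpr φ)
    (ws : Fin k → FreeGroup (Fin k)) (hws : ∀ s, γ (ws s) = φ (γ (FreeGroup.of s)))
    (T : ∀ n, Matrix.unitaryGroup (Fin (d n)) ℂ) (hAH : AH γ l d U) (hTW : TW ws l d U T)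
    (x : ∀ n, Mt (d n)) (hx1 : ∀ n, hs (x n) ≤ 1)
    (hUx : ∀ s, HN l (rr U (FreeGroup.of s) * x - x * rr U (FreeGroup.of s)))
    (hTx : HN l ((fun n => (T n).val) * x - x * (fun n => (T n).val))) (s : Fin k) :
    HN l ((rr U (FreeGroup.of s) - 1) * x) := by
  set tt : ∀ n, Mt (d n) := fun n => (T n).val with htt
  set ti : ∀ n, Mt (d n) := fun n => (T n)⁻¹.val with hti
  have htti : tt * ti = 1 := by
    funext n
    have h1 : (T n * (T n)⁻¹).val = (1 : Matrix.unitaryGroup (Fin (d n)) ℂ).val := by
      rw [mul_inv_cancel]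
    exact h1
  have htit : ti * tt = 1 := by
    funext n
    have h1 : ((T n)⁻¹ * T n).val = (1 : Matrix.unitaryGroup (Fin (d n)) ℂ).val := by
      rw [inv_mul_cancel]
    exact h1
  have hbt : Bd tt := ⟨1, fun n => on_unitary _⟩
  have hbi : Bd ti := ⟨1, fun n => on_unitary _⟩
  have hxB : HB x := ⟨1, hx1⟩
  have hD : ∀ s, ON l (ti * rr U (FreeGroup.of s) * tt - rr U (ws s)) := by
    intro s
    have h1 := hTW s
    have h2 : (fun n => on (((T n)⁻¹ * U n s * T n).val - (FreeGroup.lift (U n) (ws s)).val)) =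
        fun n => on ((ti * rr U (FreeGroup.of s) * tt - rr U (ws s)) n) := by
      funext n
      rw [rr_of]
      rfl
    rw [h2] at h1
    exact h1
  have hcomm := comm_words x hUx
  have hker : ∀ w v : FreeGroup (Fin k), γ w = γ v → v ∈ MM l U x → w ∈ MM l U x := by
    intro w v hwv hv
    rw [mem_MM] at hv ⊢
    have h1 : (rr U w - 1) * x = (rr U w - rr U v) * x + (rr U v - 1) * x := by noncomm_ring
    rw [h1]
    exact ((AH_eq hAH hwv).hL hxB).add hv
  have hmap : ∀ w, γ w ∈ (MM l U x).map γ → w ∈ MM l U x := by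
    intro w hw
    obtain ⟨v, hv, hvw⟩ := Subgroup.mem_map.1 hw
    exact hker w v hvw.symm hv
  have hnorm : ((MM l U x).map γ).Normal := (MM_normal x hcomm).map γ hγ
  have hTxi : HN l (ti * x * tt - x) := by
    have h1 : ti * x * tt - x = -(ti * (tt * x - x * tt)) := by
      have h2 : ti * (tt * x - x * tt) = (ti * tt) * x - ti * x * tt := by noncomm_ring
      rw [h2, htit]
      noncomm_ring
    rw [h1]
    exact (HN.mulL hbi hTx).neg
  have htop : (MM l U x).map γ = ⊤ := by
    apply hC _ hnorm
    · intro a b hab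
      obtain ⟨al, rfl⟩ := hγ a
      obtain ⟨be, rfl⟩ := hγ b
      have h0 : be * al * be⁻¹ * al⁻¹ ∈ MM l U x := by
        rw [mem_MM]
        set A : ∀ n, Mt (d n) := tt * rr U al * ti with hA
        set y : ∀ n, Mt (d n) := ti * x * tt with hy
        have hAb : Bd A := (hbt.mul (rr_bd _)).mul hbi
        have hAs : ∀ s, ON l (rr U (FreeGroup.of s) * A - A * rr U (FreeGroup.of s)) := by
          intro s
          set D := ti * rr U (FreeGroup.of s) * tt - rr U (ws s) with hDs
          have h1 : rr U (FreeGroup.of s) * A - A * rr U (FreeGroup.of s) =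
              tt * (D * rr U al - rr U al * D + (rr U (ws s * al) - rr U (al * ws s))) * ti := by
            have h2 : tt * (D * rr U al - rr U al * D + (rr U (ws s * al) - rr U (al * ws s))) * ti =
                (tt * ti) * rr U (FreeGroup.of s) * tt * rr U al * ti -
                  tt * rr U al * ti * rr U (FreeGroup.of s) * (tt * ti) := by
              rw [hDs, rr_mul, rr_mul]
              noncomm_ring
            rw [h2, htti, hA]
            noncomm_ring
          rw [h1]
          refine ON.mulR (ON.mulL hbt ?_) hbi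
          refine ON.add (ON.sub (ON.mulR (hD s) (rr_bd _)) (ON.mulL (rr_bd _) (hD s))) ?_
          apply AH_eq hAH
          rw [map_mul, map_mul, hws, hab]
        have hx' : ∀ n, hs ((A * x) n) ≤ 1 := by
          intro n
          have h1 : on (A n) ≤ 1 := by
            have h2 : A n = (T n * FreeGroup.lift (U n) al * (T n)⁻¹).val := rfl
            rw [h2]
            exact on_unitary _
          calc hs ((A * x) n) ≤ on (A n) ^ 2 * hs (x n) := hs_mul_left _ _
            _ ≤ 1 ^ 2 * 1 := mul_le_mul (pow_le_pow_left₀ (on_nonneg _) h1 2) (hx1 n)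
                  (hs_nonneg _) (by norm_num)
            _ = 1 := by norm_num
        have hUx' : ∀ s, HN l (rr U (FreeGroup.of s) * (A * x) - (A * x) * rr U (FreeGroup.of s)) := by
          intro s
          have h1 : rr U (FreeGroup.of s) * (A * x) - (A * x) * rr U (FreeGroup.of s) =
              (rr U (FreeGroup.of s) * A - A * rr U (FreeGroup.of s)) * x +
                A * (rr U (FreeGroup.of s) * x - x * rr U (FreeGroup.of s)) := by noncomm_ring
          rw [h1]
          exact ((hAs s).hL hxB).add (HN.mulL hAb (hUx s))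
        have hHSV := hH K k γ hK hγ ws l d U T hAH hTW (A * x) hx' (by
          intro s
          have h1 := hUx' s
          rw [rr_of] at h1
          exact h1)
        have hz : ∀ s, HN l (rr U (FreeGroup.of s) * (rr U al * y) -
            (rr U al * y) * rr U (FreeGroup.of s)) := by
          intro s
          have h1 : ti * (A * x) * tt = rr U al * y := by
            have h2 : ti * (A * x) * tt = (ti * tt) * rr U al * y := by
              rw [hA, hy]
              noncomm_ring
            rw [h2, htit, one_mul]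
          rw [← h1, rr_of]
          exact hHSV s
        have hz' := comm_words (rr U al * y) hz be
        have hyc : HN l (rr U be * y - y * rr U be) := by
          have h1 : rr U be * y - y * rr U be =
              rr U be * (y - x) - (y - x) * rr U be + (rr U be * x - x * rr U be) := by
            noncomm_ring
          rw [h1]
          exact ((HN.mulL (rr_bd _) hTxi).sub (HN.mulR hTxi (rr_bd _))).add (hcomm be)
        have hPQ : HN l ((rr U (be * al) - rr U (al * be)) * x) := by
          have h1 : (rr U (be * al) - rr U (al * be)) * x =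
              (rr U be * (rr U al * y) - (rr U al * y) * rr U be) -
                rr U al * (rr U be * y - y * rr U be) -
                (rr U (be * al) - rr U (al * be)) * (y - x) := by
            rw [rr_mul, rr_mul]
            noncomm_ring
          rw [h1]
          exact (hz'.sub (HN.mulL (rr_bd _) hyc)).sub
            (HN.mulL ((rr_bd _).sub (rr_bd _)) hTxi)
        have h5 : (rr U (be * al * be⁻¹ * al⁻¹) - 1) * x =
            (rr U (be * al) - rr U (al * be)) *
              (rr U (al * be)⁻¹ * x - x * rr U (al * be)⁻¹) +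
            ((rr U (be * al) - rr U (al * be)) * x) * rr U (al * be)⁻¹ := by
          have h6 : be * al * be⁻¹ * al⁻¹ = (be * al) * (al * be)⁻¹ := by group
          have h7 : (rr U (be * al) - rr U (al * be)) *
              (rr U (al * be)⁻¹ * x - x * rr U (al * be)⁻¹) +
            ((rr U (be * al) - rr U (al * be)) * x) * rr U (al * be)⁻¹ =
            rr U (be * al) * rr U (al * be)⁻¹ * x - (rr U (al * be) * rr U (al * be)⁻¹) * x := by
            noncomm_ring
          rw [h7, h6, rr_mul_inv, rr_mul (be * al)]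
          noncomm_ring
        rw [h5]
        exact (HN.mulL ((rr_bd _).sub (rr_bd _)) (hcomm _)).add (HN.mulR hPQ (rr_bd _))
      refine Subgroup.mem_map.2 ⟨_, h0, ?_⟩
      simp only [map_mul, map_inv]
    · intro a ha
      obtain ⟨w, rfl⟩ := hγ a
      have hw' : γ (FreeGroup.lift ws w) = φ (γ w) := by
        have h1 : γ.comp (FreeGroup.lift ws) = φ.comp γ := by
          apply FreeGroup.ext_hom
          intro s
          simp [hws]
        exact DFunLike.congr_fun h1 w
      rw [← hw'] at ha
      have h2 := hmap _ ha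
      rw [mem_MM] at h2
      have h3 : ON l (ti * rr U w * tt - rr U (FreeGroup.lift ws w)) := by
        apply rep_eq (F := fun w => ti * rr U w * tt) (G := fun w => rr U (FreeGroup.lift ws w))
        · simp only [rr_one, mul_one]
          exact htit
        · simp only [map_one, rr_one]
        · intro w w'
          have h4 : ti * rr U w * tt * (ti * rr U w' * tt) =
              ti * rr U w * (tt * ti) * rr U w' * tt := by noncomm_ring
          rw [h4, htti, rr_mul]
          noncomm_ring
        · intro w w'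
          simp only [map_mul, rr_mul]
        · intro w
          exact (hbi.mul (rr_bd _)).mul hbt
        · intro w
          exact rr_bd _
        · intro s
          simp only [FreeGroup.lift_apply_of]
          exact hD s
      have h4 : HN l (tt * ((ti * rr U w * tt - 1) * x)) := by
        apply HN.mulL hbt
        have h5 : (ti * rr U w * tt - 1) * x = (ti * rr U w * tt - rr U (FreeGroup.lift ws w)) * x +
            (rr U (FreeGroup.lift ws w) - 1) * x := by noncomm_ring
        rw [h5]
        exact (h3.hL hxB).add h2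
      have h5 : HN l ((rr U w - 1) * x) := by
        have h6 : (rr U w - 1) * x =
            (tt * ((ti * rr U w * tt - 1) * x) - (rr U w - 1) * (tt * x - x * tt)) * ti := by
          have h7 : (tt * ((ti * rr U w * tt - 1) * x) - (rr U w - 1) * (tt * x - x * tt)) * ti =
              ((tt * ti) * rr U w * tt * x - tt * x - rr U w * tt * x + tt * x) * ti +
                (rr U w - 1) * x * (tt * ti) := by noncomm_ring
          rw [h7, htti]
          noncomm_ring
        rw [h6]
        refine HN.mulR (h4.sub ?_) hbi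
        have h8 : (rr U w - 1) * (tt * x - x * tt) =
            rr U w * (tt * x - x * tt) - (tt * x - x * tt) := by noncomm_ring
        rw [h8]
        exact (HN.mulL (rr_bd _) hTx).sub hTx
      exact Subgroup.mem_map.2 ⟨w, h5, rfl⟩
  have h1 : FreeGroup.of s ∈ MM l U x := by
    apply hmap
    rw [htop]
    exact Subgroup.mem_top _
  exact h1

/-- RIG -/
theorem t_RIG (hH : S_HSV) (hP : S_PRJ) : S_RIG := by
  intro K _ k γ φ hK hγ hC ws hws l d U T hAH hTW w
  obtain ⟨c, hc, hP'⟩ := hP K k γ hK hγ
  obtain ⟨P, hPr, hPb, hPU, hPT, hP1⟩ := hP' ws l d U T hAH hTW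
  -- it is enough to treat the generators
  suffices hgen : ∀ s, ON l (rr U (FreeGroup.of s) - 1) by
    have h1 := rep_eq (l := l) (F := rr U) (G := fun _ => (1 : ∀ n, Mt (d n))) rr_one rfl rr_mul
      (fun _ _ => (mul_one _).symm) rr_bd (fun _ => ⟨1, fun n => by
        have h2 := on_unitary (1 : Matrix.unitaryGroup (Fin (d n)) ℂ)
        exact h2⟩) hgen w
    exact h1
  -- it is enough that `P n = 0` eventually
  suffices hev : ∀ᶠ n in l, P n = 0 by
    intro s
    refine Tendsto.congr' ?_ (hP1 s)
    filter_upwards [hev] with n hn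
    rw [hn, sub_zero, mul_one, rr_of]
    rfl
  by_contra hcon
  have hfreq : ∃ᶠ n in l, P n ≠ 0 := by
    rw [Filter.Frequently]
    simpa using hcon
  set l' := l ⊓ 𝓟 {n | P n ≠ 0} with hl'
  have hne : l'.NeBot := Filter.frequently_mem_iff_neBot.1 hfreq
  have hle : l' ≤ l := inf_le_left
  have hAH' : AH γ l' d U := fun w hw => (hAH w hw).mono_left hle
  have hTW' : TW ws l' d U T := fun s => (hTW s).mono_left hle
  set e : ∀ n, ℂ := fun n => (((√(hs (P n)))⁻¹ : ℝ) : ℂ) with he
  set x : ∀ n, Mt (d n) := fun n => e n • P n with hx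
  have hsx : ∀ n, P n ≠ 0 → hs (x n) = 1 := by
    intro n hn
    rw [hx]
    simp only
    rw [he]
    simp only
    rw [hs_smul_real, inv_pow, Real.sq_sqrt (hs_nonneg _)]
    exact inv_mul_cancel₀ (hs_pos hn).ne'
  have hx1 : ∀ n, hs (x n) ≤ 1 := by
    intro n
    by_cases hn : P n = 0
    · rw [hx]
      simp only
      rw [hn, smul_zero, hs_zero]
      exact zero_le_one
    · exact (hsx n hn).le
  have hxB : HB x := ⟨1, hx1⟩
  -- commutators
  have hcm : ∀ a : ∀ n, Mt (d n), ON l (a * P - P * a) → HN l' (a * x - x * a) := by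
    intro a ha
    have h1 : a * x - x * a = (a * P - P * a) * x + x * (a * P - P * a) := by
      funext n
      change a n * (e n • P n) - (e n • P n) * a n =
        (a n * P n - P n * a n) * (e n • P n) + (e n • P n) * (a n * P n - P n * a n)
      have h2 := (hPr n).2
      rw [Matrix.mul_smul, Matrix.smul_mul, Matrix.mul_smul, Matrix.smul_mul, ← smul_sub, ← smul_add]
      congr 1
      have h3 : (a n * P n - P n * a n) * P n + P n * (a n * P n - P n * a n) =
          a n * (P n * P n) - (P n * P n) * a n := by noncomm_ring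
      rw [h3, h2]
    rw [h1]
    have h2 := ha.mono hle
    exact (h2.hL hxB).add (h2.hR hxB)
  have hUx : ∀ s, HN l' (rr U (FreeGroup.of s) * x - x * rr U (FreeGroup.of s)) := by
    intro s
    apply hcm
    rw [rr_of]
    exact hPU s
  have hTx : HN l' ((fun n => (T n).val) * x - x * (fun n => (T n).val)) := hcm _ hPT
  have hcore := core hH hK hγ hC ws hws T hAH' hTW' x hx1 hUx hTx
  -- contradiction
  have h1 : Tendsto (fun n => ∑ s, hs (((rr U (FreeGroup.of s) - 1) * x) n)) l' (𝓝 0) := by
    have h2 := tendsto_finsetSum (Finset.univ : Finset (Fin k)) (fun s _ => hcore s)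
    simpa using h2
  have h2 : ∀ n, P n ≠ 0 → c ≤ ∑ s, hs (((rr U (FreeGroup.of s) - 1) * x) n) := by
    intro n hn
    have h3 : ∀ s, hs (((rr U (FreeGroup.of s) - 1) * x) n) =
        ((√(hs (P n)))⁻¹) ^ 2 * hs (((U n s).val - 1) * P n) := by
      intro s
      have h4 : ((rr U (FreeGroup.of s) - 1) * x) n = e n • (((U n s).val - 1) * P n) := by
        rw [Pi.mul_apply, Pi.sub_apply, Pi.one_apply, rr_of, hx, Matrix.mul_smul]
      rw [h4, he]
      simp only
      rw [hs_smul_real]
    have h4 : c = ((√(hs (P n)))⁻¹) ^ 2 * (c * hs (P n)) := by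
      rw [inv_pow, Real.sq_sqrt (hs_nonneg _)]
      have h5 := (hs_pos hn).ne'
      field_simp
    rw [h4]
    simp only [h3]
    rw [← Finset.mul_sum]
    exact mul_le_mul_of_nonneg_left (hPb n) (sq_nonneg _)
  have h3 : ∀ᶠ n in l', P n ≠ 0 := by
    rw [hl']
    exact Filter.mem_inf_of_right (Filter.mem_principal_self _)
  have h4 : c ≤ 0 := ge_of_tendsto h1 (h3.mono h2)
  exact absurd h4 (not_le.2 hc)

end

end Pool.Agent.N195.MS
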